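import Pool.Agent.Q140.QUAD.Final

namespace Pool.Agent.Results.MP_bff4fe_gt.QuadrisectingChords

open Set Pool.Agent.Q140.QUAD

/-- Perpendicular chords that quadrisect the perimeter of a plane convex figure: `2 (|c₁| + |c₂|) ≥ L`,
with equality only for rectangles. -/
theorem result :
    ∀ (F : Set ℂ) (o : ℂ), IsCompact F → Convex ℝ F → o ∈ interior F →
    ∀ L t₁ t₂ t₃ t₄ : ℝ, t₁ < t₂ → t₂ < t₃ → t₃ < t₄ → t₄ < t₁ + 2 * Real.pi →
      eVariationOn (P F o) (Icc 0 (2 * Real.pi)) = ENNReal.ofReal L →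
      eVariationOn (P F o) (Icc t₁ t₂) = ENNReal.ofReal (L / 4) →
      eVariationOn (P F o) (Icc t₂ t₃) = ENNReal.ofReal (L / 4) →
      eVariationOn (P F o) (Icc t₃ t₄) = ENNReal.ofReal (L / 4) →
      eVariationOn (P F o) (Icc t₄ (t₁ + 2 * Real.pi)) = ENNReal.ofReal (L / 4) →
      inner ℝ (P F o t₁ - P F o t₃) (P F o t₂ - P F o t₄) = 0 →
      L ≤ 2 * (‖P F o t₁ - P F o t₃‖ + ‖P F o t₂ - P F o t₄‖) ∧
      (L = 2 * (‖P F o t₁ - P F o t₃‖ + ‖P F o t₂ - P F o t₄‖) → IsRect F) := by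
  intro F o hF hc ho L t₁ t₂ t₃ t₄ h12 h23 h34 h41 _ v1 v2 v3 v4 hp
  have hB : Body F o := ⟨hF, hc, ho⟩
  have hl : 0 < L / 4 := by
    have h1 : edist (P F o t₁) (P F o t₂) ≤ ENNReal.ofReal (L / 4) := by
      rw [← v1]; exact eVariationOn.edist_le _ (left_mem_Icc.2 h12.le) (right_mem_Icc.2 h12.le)
    have h2 : 0 < edist (P F o t₁) (P F o t₂) :=
      edist_pos.2 (P_ne TaskRad_proof hB h12 (by linarith))
    exact ENNReal.ofReal_pos.1 (h2.trans_le h1)
  have hQ : Quad F o (L / 4) t₁ t₂ t₃ t₄ := ⟨h12, h23, h34, h41, v1, v2, v3, v4, by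
    rw [Complex.inner] at hp
    simp at hp
    simp
    linarith⟩
  constructor
  · by_contra h
    push Not at h
    have := (main hB hl hQ (by linarith)).1
    linarith
  · intro h
    exact (main hB hl hQ (by linarith)).2

end Pool.Agent.Results.MP_bff4fe_gt.QuadrisectingChords
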